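import Pool.Agent.Work.MP_db9399_all.Interface

/-!
# MP_db9399, OCB4, large slots: HUG (helper62)

Groups `g` (side of a piece, colour) choose `x g` vertices of the candidate set `L g` such that no
chosen vertex is in conflict with another chosen vertex. Every conflict is charged at (at least) one
of its ends, `Ch g v g' v'`: the vertex `v`, chosen for `g`, is destroyed if `v'` is chosen for `g'`.
The numbers `x g` are at least `Λ` (`= log ^ 2 d`), and a vertex `v'` destroys few vertices of `L g`.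

PROOF. Every group chooses `2 x g` vertices at random. The vertices of `L g` which would be destroyed
by the other groups are at most a small part of `L g` with probability `1 - exp (- Λ)` (Chernoff), so at
most `x g` of the `2 x g` vertices of `g` are destroyed, with probability `1 - exp (- Λ)`. Symmetric local
lemma.
-/

set_option autoImplicit false

namespace Pool.Agent.Work.MP_db9399_hug

open Finset Classical

universe u

/-- Hypotheses of HUG. `Nb g`: the groups which can destroy vertices of `g`; `wm g`: number of the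
vertices of `L g` which are destroyed by one vertex, `mu g`: mean of the number of the vertices of
`L g` destroyed by the `2 x g'` vertices of the other groups `g'`. Tests `τ`: weights `w τ g v`, `Su τ`
= groups with weights, `Wm`, `mt` maximum and mean, `lam` bound. -/
structure HugH {Γ V Θ : Type u} [Fintype Γ] [Fintype V] [Fintype Θ] (x : Γ → ℕ)
    (L : Γ → Finset V) (Ch : Γ → V → Γ → V → Prop) (Nb : Γ → Finset Γ) (wm mu : Γ → ℝ)
    (w : Θ → Γ → V → ℝ) (Su : Θ → Finset Γ) (Wm mt lam : Θ → ℝ) (Λ : ℝ) (D X : ℕ) : Prop where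
  L0 : ∀ g, (L g).Nonempty
  Λ0 : 0 < Λ
  xΛ : ∀ g, Λ ≤ x g
  xX : ∀ g, x g ≤ X
  nb : ∀ g g', g ≠ g' → ∀ v ∈ L g, ∀ v' ∈ L g', Ch g v g' v' → g' ∈ Nb g
  D1 : ∀ g, (Nb g).card ≤ D
  D2 : ∀ g, (univ.filter (fun h => g ∈ Nb h)).card ≤ D
  wm0 : ∀ g, 0 < wm g
  wmx : ∀ g, ∀ g' ∈ Nb g, g' ≠ g → ∀ v' ∈ L g',
    (((L g).filter (fun v => Ch g v g' v')).card : ℝ) ≤ wm g
  mu0 : ∀ g, 0 < mu g
  mux : ∀ g, ∑ g' ∈ (Nb g).filter (fun g' => g' ≠ g), 2 * (x g' : ℝ) *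
    (∑ v' ∈ L g', (((L g).filter (fun v => Ch g v g' v')).card : ℝ)) / (L g').card ≤ mu g
  num : ∀ g, 2 * mu g + 4 * wm g * Λ ≤ (L g).card / 32
  self : ∀ g, ∀ v' ∈ L g, 2 * (x g : ℝ) *
    ((L g).filter (fun v => Ch g v g v' ∨ Ch g v' g v ∨ v = v')).card ≤ (L g).card / 32
  w0 : ∀ τ g v, 0 ≤ w τ g v
  T1 : ∀ τ, (Su τ).card ≤ D
  T2 : ∀ g, (univ.filter (fun τ => g ∈ Su τ)).card ≤ D
  Wm0 : ∀ τ, 0 < Wm τ
  Wmx : ∀ τ, ∀ g ∈ Su τ, ∀ v ∈ L g, w τ g v ≤ Wm τ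
  mt0 : ∀ τ, 0 < mt τ
  mtx : ∀ τ, ∑ g ∈ Su τ, 2 * (x g : ℝ) * (∑ v ∈ L g, w τ g v) / (L g).card ≤ mt τ
  tnum : ∀ τ, 2 * mt τ + 4 * Wm τ * Λ ≤ lam τ
  DX : 10 ^ 3 * ((D : ℝ) + 1) ^ 2 * (X + 1) ≤ Real.exp Λ

/-- HUG: choices without conflicts. -/
def Stmt_HUG : Prop :=
  ∀ {Γ V Θ : Type u} [Fintype Γ] [Fintype V] [Fintype Θ] (x : Γ → ℕ) (L : Γ → Finset V)
    (Ch : Γ → V → Γ → V → Prop) (Nb : Γ → Finset Γ) (wm mu : Γ → ℝ) (w : Θ → Γ → V → ℝ)
    (Su : Θ → Finset Γ) (Wm mt lam : Θ → ℝ) (Λ : ℝ) (D X : ℕ),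
    HugH x L Ch Nb wm mu w Su Wm mt lam Λ D X →
    ∃ R : Γ → Finset V, (∀ g, R g ⊆ L g ∧ (R g).card = x g) ∧
      (∀ g g', ∀ v ∈ R g, ∀ v' ∈ R g', (g ≠ g' ∨ v ≠ v') → ¬ Ch g v g' v') ∧
      ∀ τ, ∑ g ∈ Su τ, ∑ v ∈ R g, w τ g v ≤ lam τ

end Pool.Agent.Work.MP_db9399_hug
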