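import Pool.Agent.Work.MP_db9399_ownx_helper62.Lidx
import Pool.Agent.Work.MP_db9399_hug_helper62.Defs

/-!
# MP_db9399, HUG: probabilities (helper62)
-/

set_option autoImplicit false

namespace Pool.Agent.Work.MP_db9399_hug

open Finset Classical
open Pool.Agent.Work.MP_db9399_all (pr DepOnI)
open Pool.Agent.Work.MP_db9399_en (ex pr_nonneg pr_le_one pr_mono pr_bUnion)
open Pool.Agent.Work.MP_db9399_ow.helper12s (prc ex_coord)
open Pool.Agent.Work.MP_db9399_ownx (card_mod)

universe u v

/-- a uniform choice from a finite set -/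
theorem pickV {V : Type u} {M : ℕ} (H : Finset V) (hH : 0 < H.card) (hM : H.card ∣ M) :
    ∃ p : Fin M → V, (∀ x, p x ∈ H) ∧
      ∀ g, ((univ.filter (fun x => p x = g)).card : ℝ) ≤ M / H.card := by
  have hlt : ∀ x : Fin M, (x : ℕ) % H.card < H.card := fun x => Nat.mod_lt _ hH
  refine ⟨fun x => (H.equivFin.symm ⟨(x : ℕ) % H.card, hlt x⟩).1, fun x =>
    (H.equivFin.symm ⟨(x : ℕ) % H.card, hlt x⟩).2, fun g => ?_⟩
  by_cases hg : g ∈ H
  · have h1 : (univ.filter (fun x : Fin M =>
        (H.equivFin.symm ⟨(x : ℕ) % H.card, hlt x⟩).1 = g)).card ≤ M / H.card := by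
      refine le_trans (card_le_card ?_) (card_mod hM (H.equivFin ⟨g, hg⟩).1)
      intro x hx
      rw [mem_filter] at hx ⊢
      refine ⟨mem_univ _, ?_⟩
      have h2 : H.equivFin.symm ⟨(x : ℕ) % H.card, hlt x⟩ = ⟨g, hg⟩ := Subtype.ext hx.2
      have h3 := congrArg H.equivFin h2
      rw [Equiv.apply_symm_apply] at h3
      exact congrArg Fin.val h3
    have h2 : ((M / H.card : ℕ) : ℝ) ≤ (M : ℝ) / H.card := Nat.cast_div_le
    exact le_trans (by exact_mod_cast h1) h2
  · have h1 : (univ.filter (fun x : Fin M =>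
        (H.equivFin.symm ⟨(x : ℕ) % H.card, hlt x⟩).1 = g)) = ∅ := by
      rw [filter_eq_empty_iff]
      intro x _ e
      exact hg (e ▸ (H.equivFin.symm ⟨(x : ℕ) % H.card, hlt x⟩).2)
    rw [h1]
    simp
    positivity

/-- sums over the choices -/
theorem sum_pick {V : Type u} {M : ℕ} (H : Finset V) (p : Fin M → V) (hp : ∀ x, p x ∈ H)
    (hq : ∀ g, ((univ.filter (fun x => p x = g)).card : ℝ) ≤ M / H.card) (φ : V → ℝ)
    (h0 : ∀ v, 0 ≤ φ v) : ∑ c, φ (p c) ≤ M / H.card * ∑ v ∈ H, φ v := by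
  rw [← sum_fiberwise_of_maps_to (s := univ) (t := H) (g := p) (fun c _ => hp c), mul_sum]
  refine sum_le_sum fun v _ => ?_
  have h1 : ∑ c ∈ univ.filter (fun c => p c = v), φ (p c) =
      ((univ.filter (fun x => p x = v)).card : ℝ) * φ v := by
    rw [sum_congr rfl (g := fun _ => φ v) fun c hc => by rw [(mem_filter.1 hc).2], sum_const,
      nsmul_eq_mul]
  rw [h1]
  exact mul_le_mul_of_nonneg_right (hq v) (h0 v)

/-- number of choices with values in `A` -/
theorem card_pick {V : Type u} {M : ℕ} (H : Finset V) (p : Fin M → V)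
    (hq : ∀ g, ((univ.filter (fun x => p x = g)).card : ℝ) ≤ M / H.card) (A : Finset V) :
    ((univ.filter (fun c => p c ∈ A)).card : ℝ) ≤ M / H.card * A.card := by
  have h1 : univ.filter (fun c => p c ∈ A) = A.biUnion (fun v => univ.filter (fun c => p c = v)) := by
    ext c
    rw [mem_filter, mem_biUnion]
    constructor
    · intro h
      exact ⟨p c, h.2, mem_filter.2 ⟨mem_univ _, rfl⟩⟩
    · rintro ⟨v, hv, hc⟩
      rw [(mem_filter.1 hc).2]
      exact ⟨mem_univ _, hv⟩
  rw [h1]
  have h2 : ((A.biUnion (fun v => univ.filter (fun c => p c = v))).card : ℝ) ≤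
      ∑ v ∈ A, ((univ.filter (fun c => p c = v)).card : ℝ) := by
    exact_mod_cast card_biUnion_le
  refine h2.trans ((sum_le_sum fun v _ => hq v).trans (le_of_eq ?_))
  rw [sum_const, nsmul_eq_mul, mul_comm]

section step
variable {J : Type u} [Fintype J] {M : ℕ}

/-- one more coordinate -/
theorem step (hM : 0 < M) (j : J) (A : (J → Fin M) → Prop)
    (hA' : ∀ f f', (∀ i, i ≠ j → f i = f' i) → (A f ↔ A f'))
    (bad : (J → Fin M) → Finset (Fin M))
    (hb' : ∀ f f', (∀ i, i ≠ j → f i = f' i) → bad f = bad f') {β : ℝ}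
    (hc : ∀ f, ((bad f).card : ℝ) ≤ β * M) :
    pr (fun f => A f ∧ f j ∈ bad f) ≤ β * pr A := by
  have hMR : (0 : ℝ) < M := by exact_mod_cast hM
  have hcard := Pool.Agent.Work.MP_db9399_en.card_pos (J := J) hM
  have hA : ∀ f c, A (Function.update f j c) ↔ A f := fun f c =>
    hA' _ _ fun i hi => Function.update_of_ne hi _ _
  have hb : ∀ f c, bad (Function.update f j c) = bad f := fun f c =>
    hb' _ _ fun i hi => Function.update_of_ne hi _ _
  have h1 : ((univ.filter (fun f : J → Fin M => A f ∧ f j ∈ bad f)) ×ˢ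
      (univ : Finset (Fin M))).card ≤
      ((univ.filter A).sigma bad).card := by
    refine card_le_card_of_injOn (fun q => ⟨Function.update q.1 j q.2, q.1 j⟩) ?_ ?_
    · rintro ⟨f, c⟩ hf
      rw [mem_coe, mem_product, mem_filter] at hf
      rw [mem_coe, mem_sigma, mem_filter]
      exact ⟨⟨mem_univ _, (hA f c).2 hf.1.2.1⟩, by rw [hb]; exact hf.1.2.2⟩
    · rintro ⟨f, c⟩ _ ⟨f', c'⟩ _ he
      simp only [Sigma.mk.injEq, heq_eq_eq] at he
      obtain ⟨h2, h3⟩ := he
      have h4 : c = c' := by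
        have := congrFun h2 j
        rwa [Function.update_self, Function.update_self] at this
      have h5 : f = f' := by
        funext i
        by_cases hi : i = j
        · rw [hi]; exact h3
        · have := congrFun h2 i
          rwa [Function.update_of_ne hi, Function.update_of_ne hi] at this
      rw [h4, h5]
  rw [card_product, card_univ, Fintype.card_fin, card_sigma] at h1
  have h2 : ((univ.filter (fun f : J → Fin M => A f ∧ f j ∈ bad f)).card : ℝ) * M ≤
      ∑ f ∈ univ.filter A, ((bad f).card : ℝ) := by exact_mod_cast h1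
  have h3 : ∑ f ∈ univ.filter A, ((bad f).card : ℝ) ≤ (univ.filter A).card * (β * M) := by
    refine (sum_le_sum fun f _ => hc f).trans (le_of_eq ?_)
    rw [sum_const, nsmul_eq_mul]
  have h4 : ((univ.filter (fun f : J → Fin M => A f ∧ f j ∈ bad f)).card : ℝ) ≤
      β * (univ.filter A).card := by
    have h5 : ((univ.filter (fun f : J → Fin M => A f ∧ f j ∈ bad f)).card : ℝ) * M ≤
        β * (univ.filter A).card * M := by
      refine (h2.trans h3).trans (le_of_eq (by ring))
    exact le_of_mul_le_mul_right h5 hMR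
  unfold pr
  rw [mul_div_assoc']
  refine div_le_div_of_nonneg_right ?_ hcard.le
  calc _ = ((univ.filter (fun f : J → Fin M => A f ∧ f j ∈ bad f)).card : ℝ) := by congr!
    _ ≤ β * (univ.filter A).card := h4
    _ = _ := by congr!

/-- all coordinates of `I` are bad -/
theorem seqP (hM : 0 < M) {r : ℕ} (j : Fin r → J) (hj : Function.Injective j)
    (bad : Fin r → (J → Fin M) → Finset (Fin M))
    (hb : ∀ k k', k ≤ k' → ∀ f f', (∀ i, i ≠ j k' → f i = f' i) → bad k f = bad k f') {β : ℝ}
    (hβ : 0 ≤ β) (hc : ∀ k f, ((bad k f).card : ℝ) ≤ β * M) (I : Finset (Fin r)) (n : ℕ) :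
    pr (fun f => ∀ k ∈ I, (k : ℕ) < n → f (j k) ∈ bad k f) ≤
      β ^ (I.filter (fun k : Fin r => (k : ℕ) < n)).card := by
  induction n with
  | zero =>
    have h1 : I.filter (fun k : Fin r => (k : ℕ) < 0) = ∅ := by
      rw [filter_eq_empty_iff]
      intro k _
      exact Nat.not_lt_zero _
    rw [h1, card_empty, pow_zero]
    exact pr_le_one _
  | succ n ih =>
    by_cases hn : ∃ h : n < r, (⟨n, h⟩ : Fin r) ∈ I
    · obtain ⟨hnr, hnI⟩ := hn
      have h1 : I.filter (fun k : Fin r => (k : ℕ) < n + 1) =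
          insert (⟨n, hnr⟩ : Fin r) (I.filter (fun k : Fin r => (k : ℕ) < n)) := by
        ext k
        rw [mem_filter, mem_insert, mem_filter, Fin.ext_iff]
        constructor
        · rintro ⟨h2, h3⟩
          by_cases h4 : (k : ℕ) = n
          · exact Or.inl h4
          · exact Or.inr ⟨h2, by omega⟩
        · rintro (h2 | h2)
          · have h2' : (k : ℕ) = n := h2
            refine ⟨?_, by omega⟩
            have : k = ⟨n, hnr⟩ := Fin.ext h2
            rw [this]
            exact hnI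
          · exact ⟨h2.1, by omega⟩
      have h2 : (⟨n, hnr⟩ : Fin r) ∉ I.filter (fun k : Fin r => (k : ℕ) < n) := by
        rw [mem_filter]
        rintro ⟨-, h3⟩
        exact lt_irrefl _ h3
      rw [h1, card_insert_of_notMem h2, pow_succ, mul_comm]
      refine le_trans ?_ (mul_le_mul_of_nonneg_left ih hβ)
      refine le_trans (pr_mono fun f hf => ?_) (step hM (j ⟨n, hnr⟩)
        (fun f => ∀ k ∈ I, (k : ℕ) < n → f (j k) ∈ bad k f) ?_ (bad ⟨n, hnr⟩) ?_
        (hc ⟨n, hnr⟩))
      · exact ⟨fun k hk hkn => hf k hk (by omega), hf _ hnI (Nat.lt_succ_self n)⟩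
      · intro f f' hff
        refine forall₃_congr fun k hk hkn => ?_
        have h3 : k ≤ ⟨n, hnr⟩ := by
          rw [Fin.le_def]
          exact hkn.le
        rw [hb k ⟨n, hnr⟩ h3 f f' hff, hff (j k)]
        intro h4
        have := hj h4
        rw [this] at hkn
        exact lt_irrefl _ hkn
      · intro f f' hff
        exact hb _ _ le_rfl f f' hff
    · have h1 : I.filter (fun k : Fin r => (k : ℕ) < n + 1) = I.filter (fun k : Fin r => (k : ℕ) < n) := by
        refine filter_congr fun k hk => ?_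
        constructor
        · intro h2
          have h3 : (k : ℕ) ≠ n := by
            intro h4
            apply hn
            refine ⟨by rw [← h4]; exact k.2, ?_⟩
            have : k = ⟨n, by rw [← h4]; exact k.2⟩ := Fin.ext h4
            rw [← this]
            exact hk
          omega
        · intro h2
          omega
      rw [h1]
      refine le_trans (pr_mono fun f hf => ?_) ih
      exact fun k hk hkn => hf k hk (by omega)

/-- many bad coordinates -/
theorem manyP (hM : 0 < M) {r : ℕ} (j : Fin r → J) (hj : Function.Injective j)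
    (bad : Fin r → (J → Fin M) → Finset (Fin M))
    (hb : ∀ k k', k ≤ k' → ∀ f f', (∀ i, i ≠ j k' → f i = f' i) → bad k f = bad k f') {β : ℝ}
    (hβ : 0 ≤ β) (hc : ∀ k f, ((bad k f).card : ℝ) ≤ β * M) (x : ℕ) :
    pr (fun f => x ≤ (univ.filter (fun k => f (j k) ∈ bad k f)).card) ≤
      2 ^ r * β ^ x := by
  have h1 : pr (fun f => x ≤ (univ.filter (fun k => f (j k) ∈ bad k f)).card) ≤
      pr (fun f => ∃ I ∈ powersetCard x (univ : Finset (Fin r)), ∀ k ∈ I, f (j k) ∈ bad k f) := by
    refine pr_mono fun f hf => ?_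
    obtain ⟨I, hI, hIc⟩ := exists_subset_card_eq hf
    exact ⟨I, mem_powersetCard.2 ⟨subset_univ _, hIc⟩, fun k hk => (mem_filter.1 (hI hk)).2⟩
  refine h1.trans ((pr_bUnion _ _).trans ?_)
  have h2 : ∀ I ∈ powersetCard x (univ : Finset (Fin r)),
      pr (fun f : J → Fin M => ∀ k ∈ I, f (j k) ∈ bad k f) ≤ β ^ x := by
    intro I hI
    have h3 := seqP hM j hj bad hb hβ hc I r
    have h4 : I.filter (fun k : Fin r => (k : ℕ) < r) = I := filter_true_of_mem fun k _ => k.2
    rw [h4, (mem_powersetCard.1 hI).2] at h3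
    refine le_trans (pr_mono fun f hf => ?_) h3
    exact fun k hk _ => hf k hk
  refine (sum_le_sum h2).trans ?_
  rw [sum_const, nsmul_eq_mul]
  refine mul_le_mul_of_nonneg_right ?_ (by positivity)
  have h5 : (powersetCard x (univ : Finset (Fin r))).card ≤ 2 ^ r := by
    rw [card_powersetCard, card_univ, Fintype.card_fin]
    exact Nat.choose_le_two_pow r x
  exact_mod_cast h5

/-- Chernoff bound for a sum of functions of single coordinates -/
theorem cheb (hM : 0 < M) (S : Finset J) (h : J → Fin M → ℝ) {B m Λ : ℝ}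
    (h0 : ∀ j c, 0 ≤ h j c) (hB : ∀ j ∈ S, ∀ c, h j c ≤ B) (hB0 : 0 < B) (hm0 : 0 < m)
    (hm : ∑ j ∈ S, (∑ c, h j c) / M ≤ m) (hΛ : 0 ≤ Λ) :
    prc (fun f : J → Fin M => 2 * m + 4 * B * Λ ≤ ∑ j ∈ S, h j (f j)) ≤ Real.exp (-Λ) := by
  have h1 : prc (fun f : J → Fin M => m + (m + 4 * B * Λ) ≤ ∑ j ∈ S, h j (f j)) ≤
      Real.exp (-(min ((m + 4 * B * Λ) ^ 2 / (4 * B * m)) ((m + 4 * B * Λ) / (2 * B)))) := by
    unfold prc
    refine Pool.Agent.Work.MP_db9399_en.chern_up hM S (fun i => {i}) (fun i ω => h i (ω i))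
      ?_ ?_ ?_ ?_ hB0 hm0 ?_ (by positivity)
    · intro i _ a b hab
      simp only [hab i (mem_singleton_self i)]
    · intro i _ i' _ hne
      rw [disjoint_singleton]
      exact hne
    · intro i _ ω
      exact h0 i _
    · intro i hi ω
      exact hB i hi _
    · refine le_trans (le_of_eq ?_) hm
      refine sum_congr rfl fun i _ => ?_
      exact ex_coord hM i (fun c => h i c)
  have h2 : (fun f : J → Fin M => 2 * m + 4 * B * Λ ≤ ∑ j ∈ S, h j (f j)) =
      fun f : J → Fin M => m + (m + 4 * B * Λ) ≤ ∑ j ∈ S, h j (f j) := by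
    funext f
    rw [show 2 * m + 4 * B * Λ = m + (m + 4 * B * Λ) by ring]
  rw [h2]
  refine h1.trans (Real.exp_le_exp.2 (neg_le_neg ?_))
  have h3 : 0 ≤ B * Λ := by positivity
  apply le_min
  · rw [le_div_iff₀ (by positivity)]
    nlinarith [sq_nonneg (m - 4 * B * Λ), mul_nonneg hm0.le h3]
  · rw [le_div_iff₀ (by positivity)]
    nlinarith

end step

end Pool.Agent.Work.MP_db9399_hug
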