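import Pool.Agent.Work.MP_db9399_hug_helper62.Prob

/-!
# MP_db9399, HUG: proof of `Stmt_HUG` (helper62)
-/

set_option autoImplicit false

namespace Pool.Agent.Work.MP_db9399_hug

open Finset Classical
open Pool.Agent.Work.MP_db9399_all (pr DepOnI)
open Pool.Agent.Work.MP_db9399_en (ex pr_nonneg pr_le_one pr_mono pr_bUnion)
open Pool.Agent.Work.MP_db9399_ow.helper12s (prc ex_coord)

universe u v

/-- the slots -/
abbrev Sl {Γ : Type u} (x : Γ → ℕ) : Type u := Σ g : Γ, Fin (2 * x g)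

section defs
variable {Γ V : Type u} [Fintype Γ] [Fintype V] (x : Γ → ℕ) (L : Γ → Finset V)
  (Ch : Γ → V → Γ → V → Prop) (Nb : Γ → Finset Γ) {M : ℕ} (p : Γ → Fin M → V)

/-- vertices destroyed by other groups -/
noncomputable def ext (g : Γ) (f : Sl x → Fin M) : Finset V :=
  (L g).filter (fun v => ∃ j : Sl x, j.1 ∈ Nb g ∧ j.1 ≠ g ∧ Ch g v j.1 (p j.1 (f j)))

/-- vertices destroyed by earlier slots of the same group -/
noncomputable def slf (g : Γ) (k : Fin (2 * x g)) (f : Sl x → Fin M) : Finset V :=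
  (L g).filter (fun v => ∃ k' : Fin (2 * x g), k' < k ∧ (Ch g v g (p g (f ⟨g, k'⟩)) ∨
    Ch g (p g (f ⟨g, k'⟩)) g v ∨ v = p g (f ⟨g, k'⟩)))

/-- bad values of a slot -/
noncomputable def bad (g : Γ) (k : Fin (2 * x g)) (f : Sl x → Fin M) : Finset (Fin M) :=
  if 32 * (ext x L Ch Nb p g f).card ≤ (L g).card then
    univ.filter (fun c => p g c ∈ ext x L Ch Nb p g f ∪ slf x L Ch p g k f) else ∅

theorem ext_upd (g : Γ) (k : Fin (2 * x g)) (f f' : Sl x → Fin M)
    (h : ∀ i, i ≠ (⟨g, k⟩ : Sl x) → f i = f' i) :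
    ext x L Ch Nb p g f = ext x L Ch Nb p g f' := by
  unfold ext
  refine filter_congr fun v _ => exists_congr fun j => and_congr_right fun _ =>
    and_congr_right fun hj => ?_
  rw [h j]
  intro h'
  exact hj (by rw [h'])

theorem slf_upd (g : Γ) (k k' : Fin (2 * x g)) (hk : k ≤ k') (f f' : Sl x → Fin M)
    (h : ∀ i, i ≠ (⟨g, k'⟩ : Sl x) → f i = f' i) :
    slf x L Ch p g k f = slf x L Ch p g k f' := by
  unfold slf
  refine filter_congr fun v _ => exists_congr fun k2 => and_congr_right fun hk2 => ?_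
  rw [h ⟨g, k2⟩]
  intro h'
  have h2 : k2 = k' := by simpa using h'
  rw [h2] at hk2
  exact absurd hk2 (not_lt.2 hk)

theorem bad_upd (g : Γ) (k k' : Fin (2 * x g)) (hk : k ≤ k') (f f' : Sl x → Fin M)
    (h : ∀ i, i ≠ (⟨g, k'⟩ : Sl x) → f i = f' i) :
    bad x L Ch Nb p g k f = bad x L Ch Nb p g k f' := by
  unfold bad
  rw [ext_upd x L Ch Nb p g k' f f' h, slf_upd x L Ch p g k k' hk f f' h]

end defs

section main
variable {Γ V Θ : Type u} [Fintype Γ] [Fintype V] [Fintype Θ] {x : Γ → ℕ}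
  {L : Γ → Finset V} {Ch : Γ → V → Γ → V → Prop} {Nb : Γ → Finset Γ} {wm mu : Γ → ℝ}
  {w : Θ → Γ → V → ℝ} {Su : Θ → Finset Γ} {Wm mt lam : Θ → ℝ} {Λ : ℝ} {D X : ℕ} {M : ℕ}
  {p : Γ → Fin M → V}

theorem slf_card (H : HugH x L Ch Nb wm mu w Su Wm mt lam Λ D X) (hp : ∀ g c, p g c ∈ L g) (g : Γ)
    (k : Fin (2 * x g)) (f : Sl x → Fin M) :
    ((slf x L Ch p g k f).card : ℝ) ≤ (L g).card / 32 := by
  have hx : (0 : ℝ) < x g := lt_of_lt_of_le H.Λ0 (H.xΛ g)
  have h1 : slf x L Ch p g k f ⊆ (univ : Finset (Fin (2 * x g))).biUnion (fun k' =>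
      (L g).filter (fun v => Ch g v g (p g (f ⟨g, k'⟩)) ∨ Ch g (p g (f ⟨g, k'⟩)) g v ∨
        v = p g (f ⟨g, k'⟩))) := by
    intro v hv
    obtain ⟨h2, k', -, h3⟩ := mem_filter.1 hv
    exact mem_biUnion.2 ⟨k', mem_univ _, mem_filter.2 ⟨h2, h3⟩⟩
  have h2 : ((slf x L Ch p g k f).card : ℝ) ≤ ∑ k' : Fin (2 * x g),
      (((L g).filter (fun v => Ch g v g (p g (f ⟨g, k'⟩)) ∨ Ch g (p g (f ⟨g, k'⟩)) g v ∨
        v = p g (f ⟨g, k'⟩))).card : ℝ) := by
    exact_mod_cast (card_le_card h1).trans card_biUnion_le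
  have h3 : 2 * (x g : ℝ) * ((slf x L Ch p g k f).card : ℝ) ≤
      ∑ _k' : Fin (2 * x g), ((L g).card : ℝ) / 32 := by
    refine (mul_le_mul_of_nonneg_left h2 (by positivity)).trans ?_
    rw [mul_sum]
    exact sum_le_sum fun k' _ => H.self g _ (hp g _)
  rw [sum_const, card_univ, Fintype.card_fin, nsmul_eq_mul] at h3
  push_cast at h3
  exact le_of_mul_le_mul_left h3 (by positivity)

theorem bad_card (H : HugH x L Ch Nb wm mu w Su Wm mt lam Λ D X) (hp : ∀ g c, p g c ∈ L g)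
    (hq : ∀ g v, ((univ.filter (fun c => p g c = v)).card : ℝ) ≤ M / (L g).card) (g : Γ)
    (k : Fin (2 * x g)) (f : Sl x → Fin M) :
    ((bad x L Ch Nb p g k f).card : ℝ) ≤ 1 / 16 * M := by
  have hL : (0 : ℝ) < (L g).card := by exact_mod_cast card_pos.2 (H.L0 g)
  unfold bad
  split_ifs with h
  · refine (card_pick (L g) (p g) (hq g) _).trans ?_
    have h1 : (((ext x L Ch Nb p g f ∪ slf x L Ch p g k f).card : ℕ) : ℝ) ≤
        ((ext x L Ch Nb p g f).card : ℝ) + ((slf x L Ch p g k f).card : ℝ) := by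
      exact_mod_cast card_union_le _ _
    have h2 := slf_card H hp g k f
    have h3 : 32 * ((ext x L Ch Nb p g f).card : ℝ) ≤ (L g).card := by exact_mod_cast h
    have h4 : (((ext x L Ch Nb p g f ∪ slf x L Ch p g k f).card : ℕ) : ℝ) ≤
        (L g).card / 16 := by linarith
    calc (M : ℝ) / (L g).card * (((ext x L Ch Nb p g f ∪ slf x L Ch p g k f).card : ℕ) : ℝ) ≤
        M / (L g).card * ((L g).card / 16) := mul_le_mul_of_nonneg_left h4 (by positivity)
      _ = 1 / 16 * M := by field_simp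
  · rw [card_empty, Nat.cast_zero]
    positivity

/-- coordinates of a set of groups -/
noncomputable def co (x : Γ → ℕ) (A : Finset Γ) : Finset (Sl x) := univ.filter (fun j => j.1 ∈ A)

theorem sum_co (x : Γ → ℕ) (A : Finset Γ) (F : Sl x → ℝ) :
    ∑ j ∈ co x A, F j = ∑ g ∈ A, ∑ k : Fin (2 * x g), F ⟨g, k⟩ := by
  rw [sum_sigma' A (fun g => (univ : Finset (Fin (2 * x g)))) (fun g k => F ⟨g, k⟩)]
  refine sum_congr ?_ fun j _ => rfl
  ext j
  rw [co, mem_filter, mem_sigma]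
  exact ⟨fun h => ⟨h.2, mem_univ _⟩, fun h => ⟨mem_univ _, h.1⟩⟩

theorem card_co (H : HugH x L Ch Nb wm mu w Su Wm mt lam Λ D X) (A : Finset Γ) {n : ℕ}
    (hA : A.card ≤ n) : ((co x A).card : ℝ) ≤ 2 * (n * X) := by
  have h1 : ((co x A).card : ℝ) = ∑ j ∈ co x A, (1 : ℝ) := by
    rw [sum_const, nsmul_eq_mul, mul_one]
  rw [h1, sum_co x A]
  have h2 : ∀ g ∈ A, ∑ _k : Fin (2 * x g), (1 : ℝ) ≤ 2 * (X : ℝ) := by
    intro g _
    rw [sum_const, card_univ, Fintype.card_fin, nsmul_eq_mul, mul_one]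
    have := H.xX g
    push_cast
    have h3 : (x g : ℝ) ≤ X := by exact_mod_cast this
    linarith
  refine (sum_le_sum h2).trans ?_
  rw [sum_const, nsmul_eq_mul]
  have h3 : (A.card : ℝ) ≤ n := by exact_mod_cast hA
  have h4 : (0 : ℝ) ≤ X := Nat.cast_nonneg _
  nlinarith

/-- the number of the vertices destroyed by other groups -/
noncomputable def Z1 (x : Γ → ℕ) (L : Γ → Finset V) (Ch : Γ → V → Γ → V → Prop)
    (Nb : Γ → Finset Γ) (p : Γ → Fin M → V) (g : Γ) (f : Sl x → Fin M) : ℝ :=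
  ∑ j ∈ co x ((Nb g).filter (fun g' => g' ≠ g)),
    (((L g).filter (fun v => Ch g v j.1 (p j.1 (f j)))).card : ℝ)

/-- the value of a test -/
noncomputable def Z3 (x : Γ → ℕ) (w : Θ → Γ → V → ℝ) (Su : Θ → Finset Γ)
    (p : Γ → Fin M → V) (τ : Θ) (f : Sl x → Fin M) : ℝ :=
  ∑ j ∈ co x (Su τ), w τ j.1 (p j.1 (f j))

theorem ext_le (g : Γ) (f : Sl x → Fin M) :
    ((ext x L Ch Nb p g f).card : ℝ) ≤ Z1 x L Ch Nb p g f := by
  have h1 : ext x L Ch Nb p g f ⊆ (co x ((Nb g).filter (fun g' => g' ≠ g))).biUnion (fun j =>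
      (L g).filter (fun v => Ch g v j.1 (p j.1 (f j)))) := by
    intro v hv
    obtain ⟨h2, j, h3, h4, h5⟩ := mem_filter.1 hv
    exact mem_biUnion.2 ⟨j, mem_filter.2 ⟨mem_univ _, mem_filter.2 ⟨h3, h4⟩⟩,
      mem_filter.2 ⟨h2, h5⟩⟩
  unfold Z1
  exact_mod_cast (card_le_card h1).trans card_biUnion_le

theorem avg1 (H : HugH x L Ch Nb wm mu w Su Wm mt lam Λ D X) (hM : 0 < M)
    (hp : ∀ g c, p g c ∈ L g)
    (hq : ∀ g v, ((univ.filter (fun c => p g c = v)).card : ℝ) ≤ M / (L g).card) (A : Finset Γ)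
    (φ : Γ → V → ℝ) (h0 : ∀ g v, 0 ≤ φ g v) :
    ∑ j ∈ co x A, (∑ c : Fin M, φ j.1 (p j.1 c)) / M ≤
      ∑ g ∈ A, 2 * (x g : ℝ) * (∑ v ∈ L g, φ g v) / (L g).card := by
  have hMR : (0 : ℝ) < M := by exact_mod_cast hM
  rw [sum_co x A (fun j => (∑ c : Fin M, φ j.1 (p j.1 c)) / M)]
  refine sum_le_sum fun g' _ => ?_
  have h1 : (∑ c : Fin M, φ g' (p g' c)) / M ≤ (∑ v' ∈ L g', φ g' v') / (L g').card := by
    have h2 := sum_pick (L g') (p g') (hp g') (hq g') (φ g') (h0 g')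
    rw [div_le_iff₀ hMR]
    refine h2.trans (le_of_eq ?_)
    ring
  have h2 : ∑ _k : Fin (2 * x g'), (∑ c : Fin M, φ g' (p g' c)) / (M : ℝ) =
      2 * (x g' : ℝ) * ((∑ c : Fin M, φ g' (p g' c)) / M) := by
    rw [sum_const, card_univ, Fintype.card_fin, nsmul_eq_mul]
    push_cast
    ring
  refine (le_of_eq h2).trans ?_
  calc 2 * (x g' : ℝ) * ((∑ c : Fin M, φ g' (p g' c)) / M) ≤
      2 * (x g' : ℝ) * ((∑ v' ∈ L g', φ g' v') / (L g').card) :=
        mul_le_mul_of_nonneg_left h1 (by positivity)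
    _ = _ := by ring

theorem pr1 (H : HugH x L Ch Nb wm mu w Su Wm mt lam Λ D X) (hM : 0 < M)
    (hp : ∀ g c, p g c ∈ L g)
    (hq : ∀ g v, ((univ.filter (fun c => p g c = v)).card : ℝ) ≤ M / (L g).card) (g : Γ) :
    prc (fun f : Sl x → Fin M => 2 * mu g + 4 * wm g * Λ ≤ Z1 x L Ch Nb p g f) ≤
      Real.exp (-Λ) := by
  have h1 := cheb (J := Sl x) hM (co x ((Nb g).filter (fun g' => g' ≠ g)))
    (fun j c => (((L g).filter (fun v => Ch g v j.1 (p j.1 c))).card : ℝ))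
    (B := wm g) (m := mu g) (Λ := Λ)
    (fun _ _ => Nat.cast_nonneg _) (by
      intro j hj c
      have h1 := mem_filter.1 (mem_filter.1 hj).2
      exact H.wmx g j.1 h1.1 h1.2 _ (hp _ _)) (H.wm0 g) (H.mu0 g)
    (le_trans (avg1 H hM hp hq ((Nb g).filter (fun g' => g' ≠ g))
      (fun g' v' => (((L g).filter (fun v => Ch g v g' v')).card : ℝ))
      (fun _ _ => Nat.cast_nonneg _)) (H.mux g)) H.Λ0.le
  exact h1

theorem pr3 (H : HugH x L Ch Nb wm mu w Su Wm mt lam Λ D X) (hM : 0 < M)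
    (hp : ∀ g c, p g c ∈ L g)
    (hq : ∀ g v, ((univ.filter (fun c => p g c = v)).card : ℝ) ≤ M / (L g).card) (τ : Θ) :
    prc (fun f : Sl x → Fin M => 2 * mt τ + 4 * Wm τ * Λ ≤ Z3 x w Su p τ f) ≤
      Real.exp (-Λ) := by
  have h1 := cheb (J := Sl x) hM (co x (Su τ)) (fun j c => w τ j.1 (p j.1 c))
    (B := Wm τ) (m := mt τ) (Λ := Λ)
    (fun _ _ => H.w0 _ _ _) (by
      intro j hj c
      exact H.Wmx τ j.1 (mem_filter.1 hj).2 _ (hp _ _)) (H.Wm0 τ) (H.mt0 τ)
    (le_trans (avg1 H hM hp hq (Su τ) (fun g v => w τ g v) (H.w0 τ)) (H.mtx τ)) H.Λ0.le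
  exact h1

/-- number of bad slots -/
noncomputable def nbad (x : Γ → ℕ) (L : Γ → Finset V) (Ch : Γ → V → Γ → V → Prop)
    (Nb : Γ → Finset Γ) (p : Γ → Fin M → V) (g : Γ) (f : Sl x → Fin M) : ℕ :=
  (univ.filter (fun k : Fin (2 * x g) => f ⟨g, k⟩ ∈ bad x L Ch Nb p g k f)).card

theorem pr2 (H : HugH x L Ch Nb wm mu w Su Wm mt lam Λ D X) (hM : 0 < M)
    (hp : ∀ g c, p g c ∈ L g)
    (hq : ∀ g v, ((univ.filter (fun c => p g c = v)).card : ℝ) ≤ M / (L g).card) (g : Γ) :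
    prc (fun f : Sl x → Fin M => x g ≤ nbad x L Ch Nb p g f) ≤ Real.exp (-Λ) := by
  have h1 := manyP hM (fun k : Fin (2 * x g) => (⟨g, k⟩ : Sl x)) (fun k k' h => by simpa using h)
    (bad x L Ch Nb p g) (bad_upd x L Ch Nb p g) (by norm_num) (bad_card H hp hq g) (x g)
  unfold prc nbad
  refine (le_of_eq ?_).trans (h1.trans ?_)
  · congr!
  · have h2 : (2 : ℝ) ^ (2 * x g) * (1 / 16) ^ (x g) = (1 / 4) ^ (x g) := by
      rw [pow_mul, ← mul_pow]
      norm_num
    rw [h2]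
    have h3 : (1 / 4 : ℝ) ≤ Real.exp (-1) := by
      have h4 := Real.exp_one_lt_d9
      rw [Real.exp_neg, one_div]
      exact inv_anti₀ (Real.exp_pos _) (by linarith)
    calc (1 / 4 : ℝ) ^ (x g) ≤ Real.exp (-1) ^ (x g) := pow_le_pow_left₀ (by norm_num) h3 _
      _ = Real.exp (-(x g : ℝ)) := by
        rw [← Real.exp_nat_mul]
        ring_nf
      _ ≤ Real.exp (-Λ) := Real.exp_le_exp.2 (neg_le_neg (H.xΛ g))

theorem ext_dep (g : Γ) {f f' : Sl x → Fin M} (h : ∀ j ∈ co x (insert g (Nb g)), f j = f' j) :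
    ext x L Ch Nb p g f = ext x L Ch Nb p g f' := by
  unfold ext
  refine filter_congr fun v _ => exists_congr fun j => and_congr_right fun hj => ?_
  rw [h j (mem_filter.2 ⟨mem_univ _, mem_insert_of_mem hj⟩)]

theorem nbad_dep (g : Γ) {f f' : Sl x → Fin M} (h : ∀ j ∈ co x (insert g (Nb g)), f j = f' j) :
    nbad x L Ch Nb p g f = nbad x L Ch Nb p g f' := by
  have h0 : ∀ k : Fin (2 * x g), f ⟨g, k⟩ = f' ⟨g, k⟩ := fun k =>
    h _ (mem_filter.2 ⟨mem_univ _, mem_insert_self _ _⟩)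
  have h1 : ∀ k : Fin (2 * x g), bad x L Ch Nb p g k f = bad x L Ch Nb p g k f' := by
    intro k
    unfold bad
    rw [ext_dep g h]
    have h2 : slf x L Ch p g k f = slf x L Ch p g k f' := by
      unfold slf
      refine filter_congr fun v _ => exists_congr fun k' => ?_
      rw [h0 k']
    rw [h2]
  unfold nbad
  simp only [h0, h1]

theorem Z1_dep (g : Γ) {f f' : Sl x → Fin M} (h : ∀ j ∈ co x (insert g (Nb g)), f j = f' j) :
    Z1 x L Ch Nb p g f = Z1 x L Ch Nb p g f' := by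
  unfold Z1
  refine sum_congr rfl fun j hj => ?_
  rw [h j (mem_filter.2 ⟨mem_univ _, mem_insert_of_mem
    (mem_filter.1 (mem_filter.1 hj).2).1⟩)]

end main

/-- **HUG** -/
theorem stmt_HUG : Stmt_HUG.{u} := by
  intro Γ V Θ _ _ _ x L Ch Nb wm mu w Su Wm mt lam Λ D X H
  set M : ℕ := ∏ g, (L g).card with hMdef
  have hM : 0 < M := Finset.prod_pos fun g _ => card_pos.2 (H.L0 g)
  have hpick : ∀ g, ∃ p : Fin M → V, (∀ c, p c ∈ L g) ∧
      ∀ v, ((univ.filter (fun c => p c = v)).card : ℝ) ≤ M / (L g).card := fun g =>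
    pickV (L g) (card_pos.2 (H.L0 g)) (dvd_prod_of_mem (fun g => (L g).card) (mem_univ g))
  choose p hp hq using hpick
  have hD0 : (0 : ℝ) ≤ D := Nat.cast_nonneg _
  have hX0 : (0 : ℝ) ≤ X := Nat.cast_nonneg _
  have hins : ∀ g, (insert g (Nb g)).card ≤ D + 1 := fun g =>
    (card_insert_le _ _).trans (Nat.add_le_add_right (H.D1 g) 1)
  -- local lemma
  have hSYM := Pool.Agent.Work.MP_db9399_ow.helper21.stmt_SYM
    (Pool.Agent.Work.MP_db9399_all.stmt_LLLI.{u})
  obtain ⟨f, hf⟩ := hSYM (Sl x) M (Γ ⊕ (Γ ⊕ Θ))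
    (Sum.elim (fun g => co x (insert g (Nb g)))
      (Sum.elim (fun g => co x (insert g (Nb g))) (fun τ => co x (Su τ))))
    (Sum.elim (fun g f => 2 * mu g + 4 * wm g * Λ ≤ Z1 x L Ch Nb p g f)
      (Sum.elim (fun g f => x g ≤ nbad x L Ch Nb p g f)
        (fun τ f => 2 * mt τ + 4 * Wm τ * Λ ≤ Z3 x w Su p τ f)))
    (Real.exp (-Λ)) (2 * ((D + 1 : ℕ) * X)) (3 * ((D + 1 : ℕ) : ℝ)) hM (by positivity)
    (by positivity)
    (by
      rintro (g | g | τ)
      · intro a b hab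
        simp only [Sum.elim_inl]
        rw [Z1_dep g hab]
      · intro a b hab
        simp only [Sum.elim_inl, Sum.elim_inr]
        rw [nbad_dep g hab]
      · intro a b hab
        simp only [Sum.elim_inr]
        have h1 : Z3 x w Su p τ a = Z3 x w Su p τ b := by
          unfold Z3
          exact sum_congr rfl fun j hj => by rw [hab j hj]
        rw [h1])
    (by
      rintro (g | g | τ)
      · exact card_co H _ (hins g)
      · exact card_co H _ (hins g)
      · exact card_co H _ ((H.T1 τ).trans (Nat.le_succ _)))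
    (by
      intro y
      have h1 : (univ.filter (fun e : Γ ⊕ (Γ ⊕ Θ) => y ∈
          (Sum.elim (fun g => co x (insert g (Nb g)))
            (Sum.elim (fun g => co x (insert g (Nb g))) (fun τ => co x (Su τ))) e :
              Finset (Sl x)))) ⊆
          ((insert y.1 (univ.filter (fun h => y.1 ∈ Nb h))).image Sum.inl ∪
          (insert y.1 (univ.filter (fun h => y.1 ∈ Nb h))).image (fun g => Sum.inr (Sum.inl g))) ∪
          (univ.filter (fun τ => y.1 ∈ Su τ)).image (fun τ => Sum.inr (Sum.inr τ)) := by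
        have h2 : ∀ g, y ∈ co x (insert g (Nb g)) →
            g ∈ insert y.1 (univ.filter (fun h => y.1 ∈ Nb h)) := by
          intro g hg
          rcases mem_insert.1 (mem_filter.1 hg).2 with h3 | h3
          · rw [h3]
            exact mem_insert_self _ _
          · exact mem_insert_of_mem (mem_filter.2 ⟨mem_univ _, h3⟩)
        rintro (g | g | τ) he
        · exact mem_union_left _ (mem_union_left _ (mem_image.2 ⟨g, h2 g (mem_filter.1 he).2, rfl⟩))
        · exact mem_union_left _ (mem_union_right _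
            (mem_image.2 ⟨g, h2 g (mem_filter.1 he).2, rfl⟩))
        · have h3 : y ∈ co x (Su τ) := (mem_filter.1 he).2
          exact mem_union_right _ (mem_image.2 ⟨τ, mem_filter.2 ⟨mem_univ _,
            (mem_filter.1 h3).2⟩, rfl⟩)
      have h3 := (card_le_card h1).trans ((card_union_le _ _).trans
        (Nat.add_le_add ((card_union_le _ _).trans (Nat.add_le_add card_image_le card_image_le))
          card_image_le))
      have h4 : (insert y.1 (univ.filter (fun h => y.1 ∈ Nb h))).card ≤ D + 1 :=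
        (card_insert_le _ _).trans (Nat.add_le_add_right (H.D2 y.1) 1)
      have h5 := H.T2 y.1
      have h6 : (univ.filter (fun e : Γ ⊕ (Γ ⊕ Θ) => y ∈
          (Sum.elim (fun g => co x (insert g (Nb g)))
            (Sum.elim (fun g => co x (insert g (Nb g))) (fun τ => co x (Su τ))) e :
              Finset (Sl x)))).card ≤ 3 * (D + 1) := by omega
      have h7 : ((univ.filter (fun e : Γ ⊕ (Γ ⊕ Θ) => y ∈
          (Sum.elim (fun g => co x (insert g (Nb g)))
            (Sum.elim (fun g => co x (insert g (Nb g))) (fun τ => co x (Su τ))) e :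
              Finset (Sl x)))).card : ℝ) ≤ 3 * ((D + 1 : ℕ) : ℝ) := by exact_mod_cast h6
      refine le_trans (le_of_eq ?_) h7
      congr!)
    (Real.exp_pos _).le
    (by
      rintro (g | g | τ)
      · exact pr1 H hM hp hq g
      · exact pr2 H hM hp hq g
      · exact pr3 H hM hp hq τ)
    (by
      have h1 := H.DX
      have h2 : Real.exp (-Λ) * Real.exp Λ = 1 := by
        rw [← Real.exp_add]
        simp
      have h3 := Real.exp_pos (-Λ)
      have h4 : 10 ^ 3 * ((D : ℝ) + 1) ^ 2 * (X + 1) * Real.exp (-Λ) ≤ 1 := by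
        have := mul_le_mul_of_nonneg_right h1 h3.le
        rw [mul_comm (Real.exp Λ), h2] at this
        exact this
      push_cast
      have h5 : (2 * (((D : ℝ) + 1) * X) + 1) * (3 * ((D : ℝ) + 1) + 1) ≤
          8 * ((D : ℝ) + 1) ^ 2 * (X + 1) := by
        nlinarith [mul_nonneg hD0 hX0, mul_nonneg (mul_nonneg hD0 hD0) hX0, sq_nonneg (D : ℝ)]
      have h6 : 16 * Real.exp (-Λ) * (2 * (((D : ℝ) + 1) * X) + 1) * (3 * ((D : ℝ) + 1) + 1) ≤
          16 * Real.exp (-Λ) * (8 * ((D : ℝ) + 1) ^ 2 * (X + 1)) := by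
        rw [mul_assoc (16 * Real.exp (-Λ))]
        exact mul_le_mul_of_nonneg_left h5 (by positivity)
      have h7 : 0 ≤ ((D : ℝ) + 1) ^ 2 * (X + 1) * Real.exp (-Λ) := by positivity
      linarith)
  have f1 : ∀ g, 32 * (ext x L Ch Nb p g f).card ≤ (L g).card := by
    intro g
    have h1 := hf (Sum.inl g)
    simp only [Sum.elim_inl, not_le] at h1
    have h2 := ext_le (L := L) (Ch := Ch) (Nb := Nb) (p := p) g f
    have h3 := H.num g
    have h4 : 32 * ((ext x L Ch Nb p g f).card : ℝ) ≤ (L g).card := by linarith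
    exact_mod_cast h4
  have f2 : ∀ g, nbad x L Ch Nb p g f < x g := by
    intro g
    have h1 := hf (Sum.inr (Sum.inl g))
    simp only [Sum.elim_inl, Sum.elim_inr, not_le] at h1
    exact h1
  have f3 : ∀ τ, Z3 x w Su p τ f < 2 * mt τ + 4 * Wm τ * Λ := by
    intro τ
    have h1 := hf (Sum.inr (Sum.inr τ))
    simp only [Sum.elim_inr, not_le] at h1
    exact h1
  -- the good slots
  let K : ∀ g, Finset (Fin (2 * x g)) := fun g =>
    univ.filter (fun k => f ⟨g, k⟩ ∉ bad x L Ch Nb p g k f)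
  have hK : ∀ g, x g ≤ (K g).card := by
    intro g
    have h1 : (univ.filter (fun k : Fin (2 * x g) => f ⟨g, k⟩ ∈ bad x L Ch Nb p g k f)).card +
        (K g).card = (univ : Finset (Fin (2 * x g))).card :=
      card_filter_add_card_filter_not _
    have h2 := f2 g
    unfold nbad at h2
    rw [card_univ, Fintype.card_fin] at h1
    omega
  have hKe : ∀ g, ∀ k ∈ K g, p g (f ⟨g, k⟩) ∉ ext x L Ch Nb p g f ∧
      p g (f ⟨g, k⟩) ∉ slf x L Ch p g k f := by
    intro g k hk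
    have h1 := (mem_filter.1 hk).2
    unfold bad at h1
    rw [if_pos (f1 g), mem_filter, mem_union] at h1
    exact ⟨fun h => h1 ⟨mem_univ _, Or.inl h⟩, fun h => h1 ⟨mem_univ _, Or.inr h⟩⟩
  have hself : ∀ g, ∀ k ∈ K g, ∀ k' : Fin (2 * x g), k' < k →
      ¬ (Ch g (p g (f ⟨g, k⟩)) g (p g (f ⟨g, k'⟩)) ∨ Ch g (p g (f ⟨g, k'⟩)) g (p g (f ⟨g, k⟩)) ∨
        p g (f ⟨g, k⟩) = p g (f ⟨g, k'⟩)) := by
    intro g k hk k' hkk h
    exact (hKe g k hk).2 (mem_filter.2 ⟨hp g _, k', hkk, h⟩)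
  have hinj : ∀ g, Set.InjOn (fun k : Fin (2 * x g) => p g (f ⟨g, k⟩)) (K g : Set (Fin (2 * x g))) := by
    intro g k hk k' hk' he
    rcases lt_trichotomy k k' with h | h | h
    · exact absurd (Or.inr (Or.inr he.symm)) (hself g k' hk' k h)
    · exact h
    · exact absurd (Or.inr (Or.inr he)) (hself g k hk k' h)
  have hR : ∀ g, ∃ R ⊆ (K g).image (fun k => p g (f ⟨g, k⟩)), R.card = x g := by
    intro g
    apply exists_subset_card_eq
    rw [card_image_of_injOn (hinj g)]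
    exact hK g
  choose R hR1 hR2 using hR
  refine ⟨R, fun g => ⟨fun v hv => ?_, hR2 g⟩, ?_, ?_⟩
  · obtain ⟨k, -, rfl⟩ := mem_image.1 (hR1 g hv)
    exact hp g _
  · intro g g' v hv v' hv' hne hch
    obtain ⟨k, hk, rfl⟩ := mem_image.1 (hR1 g hv)
    obtain ⟨k', hk', rfl⟩ := mem_image.1 (hR1 g' hv')
    by_cases hgg : g = g'
    · subst hgg
      have hkk : k ≠ k' := by
        rintro rfl
        rcases hne with h | h
        · exact h rfl
        · exact h rfl
      rcases lt_or_gt_of_ne hkk with h | h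
      · exact hself g k' hk' k h (Or.inr (Or.inl hch))
      · exact hself g k hk k' h (Or.inl hch)
    · refine (hKe g k hk).1 (mem_filter.2 ⟨hp g _, ⟨g', k'⟩, ?_, fun h => hgg h.symm, hch⟩)
      exact H.nb g g' hgg _ (hp g _) _ (hp g' _) hch
  · intro τ
    refine le_trans ?_ ((f3 τ).le.trans (H.tnum τ))
    unfold Z3
    rw [sum_co]
    refine sum_le_sum fun g _ => ?_
    calc ∑ v ∈ R g, w τ g v ≤ ∑ v ∈ (K g).image (fun k => p g (f ⟨g, k⟩)), w τ g v :=
          sum_le_sum_of_subset_of_nonneg (hR1 g) fun _ _ _ => H.w0 _ _ _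
      _ = ∑ k ∈ K g, w τ g (p g (f ⟨g, k⟩)) := sum_image (hinj g)
      _ ≤ ∑ k : Fin (2 * x g), w τ g (p g (f ⟨g, k⟩)) :=
          sum_le_sum_of_subset_of_nonneg (subset_univ _) fun _ _ _ => H.w0 _ _ _

end Pool.Agent.Work.MP_db9399_hug
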